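import Mathlib

/-!
# Infinitely many points of the unit circle: return times
-/

set_option autoImplicit false

open Filter Topology

namespace Pool.Agent.Helper44.WNH

theorem pow_sub_pow_norm {z w : ℂ} (hz : ‖z‖ = 1) (hw : ‖w‖ = 1) (k : ℕ) :
    ‖z ^ k - w ^ k‖ ≤ k * ‖z - w‖ := by
  induction k with
  | zero => simp
  | succ k ih =>
    have h : z ^ (k + 1) - w ^ (k + 1) = z ^ k * (z - w) + (z ^ k - w ^ k) * w := by ring
    rw [h]
    refine (norm_add_le _ _).trans ?_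
    rw [norm_mul, norm_mul, norm_pow, hz, hw, one_pow]
    push_cast
    linarith

/-- if the powers of `z` stay near to one then `z` is very near to one -/
theorem near_one {z : ℂ} {m : ℕ} (hm : 0 < m)
    (h : ∀ i, 1 ≤ i → i ≤ m → ‖z ^ i - 1‖ < 1 / 2) : ‖z - 1‖ ≤ 1 / m := by
  have hre : ∀ i, i < m → (1 / 2 : ℝ) ≤ (z ^ i).re := by
    intro i hi
    rcases Nat.eq_zero_or_pos i with h0 | h0
    · subst h0; simp; norm_num
    · have h1 := h i h0 hi.le
      have h2 := (Complex.abs_re_le_norm (z ^ i - 1)).trans h1.le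
      rw [Complex.sub_re, Complex.one_re, abs_le] at h2
      linarith [h2.1]
  have hsum : (m : ℝ) / 2 ≤ ‖∑ i ∈ Finset.range m, z ^ i‖ := by
    refine le_trans ?_ (Complex.re_le_norm _)
    rw [Complex.re_sum]
    calc (m : ℝ) / 2 = ∑ _i ∈ Finset.range m, (1 / 2 : ℝ) := by
          rw [Finset.sum_const, Finset.card_range, nsmul_eq_mul]; ring
      _ ≤ _ := Finset.sum_le_sum fun i hi => hre i (Finset.mem_range.1 hi)
  have hgeo : (∑ i ∈ Finset.range m, z ^ i) * (z - 1) = z ^ m - 1 := geom_sum_mul z m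
  have h3 : ‖∑ i ∈ Finset.range m, z ^ i‖ * ‖z - 1‖ = ‖z ^ m - 1‖ := by
    rw [← norm_mul, hgeo]
  have h4 := h m hm le_rfl
  have hm' : (0 : ℝ) < m := by exact_mod_cast hm
  rw [le_div_iff₀ hm']
  have h5 := mul_le_mul_of_nonneg_right hsum (norm_nonneg (z - 1))
  rw [h3] at h5
  nlinarith

/-- a point of the circle different from one does not stay near to one -/
theorem exists_far {z : ℂ} (hz : ‖z‖ = 1) (hz1 : z ≠ 1) (N : ℕ) : ∃ k, N ≤ k ∧ 1 ≤ ‖z ^ k - 1‖ := by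
  by_contra hcon
  push Not at hcon
  have hd : 0 < ‖z - 1‖ := norm_pos_iff.2 (sub_ne_zero.2 hz1)
  have hre : ∀ k, N ≤ k → (1 / 2 : ℝ) ≤ (z ^ k).re := by
    intro k hk
    have h1 := hcon k hk
    have h2 : ‖z ^ k‖ = 1 := by rw [norm_pow, hz, one_pow]
    have h3 : ‖z ^ k - 1‖ ^ 2 = 2 - 2 * (z ^ k).re := by
      have e1 := Complex.sq_norm (z ^ k - 1)
      have e2 := Complex.sq_norm (z ^ k)
      rw [h2, Complex.normSq_apply] at e2
      rw [e1, Complex.normSq_apply, Complex.sub_re, Complex.sub_im, Complex.one_re, Complex.one_im]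
      nlinarith
    nlinarith [norm_nonneg (z ^ k - 1)]
  obtain ⟨M, hM⟩ := exists_nat_gt (4 / ‖z - 1‖)
  have hsum : (M : ℝ) / 2 ≤ ‖∑ i ∈ Finset.range M, z ^ (N + i)‖ := by
    refine le_trans ?_ (Complex.re_le_norm _)
    rw [Complex.re_sum]
    calc (M : ℝ) / 2 = ∑ _i ∈ Finset.range M, (1 / 2 : ℝ) := by
          rw [Finset.sum_const, Finset.card_range, nsmul_eq_mul]; ring
      _ ≤ _ := Finset.sum_le_sum fun i _ => hre _ (Nat.le_add_right _ _)
  have hgeo : (∑ i ∈ Finset.range M, z ^ (N + i)) * (z - 1) = z ^ N * (z ^ M - 1) := by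
    simp only [pow_add, ← Finset.mul_sum]
    rw [mul_assoc, geom_sum_mul]
  have h3 : ‖∑ i ∈ Finset.range M, z ^ (N + i)‖ * ‖z - 1‖ ≤ 2 := by
    rw [← norm_mul, hgeo, norm_mul, norm_pow, hz, one_pow, one_mul]
    refine (norm_sub_le _ _).trans ?_
    rw [norm_pow, hz, one_pow, norm_one]; norm_num
  have h5 := mul_le_mul_of_nonneg_right hsum hd.le
  rw [div_lt_iff₀ hd] at hM
  linarith

/-- **Return times** of finitely many points of the circle at which another one is far. -/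
theorem bohr {ζ : ℕ → ℂ} (hζ : ∀ j, ‖ζ j‖ = 1) (hinj : Function.Injective ζ) (F : Finset ℕ)
    {η : ℝ} (hη : 0 < η) (N : ℕ) :
    ∃ k, N ≤ k ∧ ∃ j, (∀ l ∈ F, ‖ζ l ^ k - 1‖ ≤ η) ∧ 1 / 2 ≤ ‖ζ j ^ k - 1‖ := by
  by_contra hcon
  push Not at hcon
  -- the small return times make all points very near to one
  have h1 : ∀ k, max N 1 ≤ k → (∀ l ∈ F, ‖ζ l ^ k - 1‖ ≤ η / 8) → ∀ j, ‖ζ j ^ k - 1‖ ≤ 1 / 8 := by
    intro k hk hl j
    have h := near_one (z := ζ j ^ k) (m := 8) (by norm_num) (by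
      intro i hi1 hi8
      rw [← pow_mul]
      refine hcon (k * i) ?_ j ?_
      · calc N ≤ k := (le_max_left _ _).trans hk
          _ ≤ k * i := Nat.le_mul_of_pos_right _ hi1
      · intro l hlF
        have e : ζ l ^ (k * i) - 1 = (ζ l ^ k) ^ i - 1 ^ i := by rw [pow_mul, one_pow]
        rw [e]
        refine (pow_sub_pow_norm (by rw [norm_pow, hζ, one_pow]) norm_one i).trans ?_
        have h8 : (i : ℝ) ≤ 8 := by exact_mod_cast hi8
        have := hl l hlF
        have h0 := norm_nonneg (ζ l ^ k - 1)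
        nlinarith)
    simpa using h
  -- the return times are syndetic
  obtain ⟨P, hP⟩ : ∃ P : ℕ, ∀ k₀, ∃ k, k₀ ≤ k ∧ k ≤ k₀ + P ∧ ∀ l ∈ F, ‖ζ l ^ k - 1‖ ≤ η / 8 := by
    let g : ℕ → (F → ℂ) := fun k l => ζ l ^ k
    have hb : TotallyBounded (Set.range g) := by
      refine (isCompact_closedBall (0 : F → ℂ) 1).totallyBounded.subset ?_
      rintro _ ⟨k, rfl⟩
      rw [mem_closedBall_zero_iff, pi_norm_le_iff_of_nonneg zero_le_one]
      intro l
      simp only [g, norm_pow, hζ, one_pow, le_refl]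
    obtain ⟨t, htfin, ht⟩ := Metric.totallyBounded_iff.1 hb (η / 16) (by positivity)
    -- for every center choose a time
    obtain ⟨τ, hτ⟩ : ∃ τ : (F → ℂ) → ℕ, ∀ y s, dist (g s) y < η / 16 → dist (g (τ y)) y < η / 16 := by
      have h : ∀ y : F → ℂ, ∃ n : ℕ, ∀ s, dist (g s) y < η / 16 → dist (g n) y < η / 16 := by
        intro y
        by_cases h : ∃ s, dist (g s) y < η / 16
        · exact ⟨h.choose, fun _ _ => h.choose_spec⟩
        · push Not at h
          exact ⟨0, fun s hs => absurd hs (not_lt.2 (h s))⟩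
      choose τ hτ using h
      exact ⟨τ, hτ⟩
    refine ⟨∑ y ∈ htfin.toFinset, τ y, fun k₀ => ?_⟩
    set P := ∑ y ∈ htfin.toFinset, τ y with hPdef
    obtain ⟨y, hyt, hy⟩ : ∃ y ∈ t, g (k₀ + P) ∈ Metric.ball y (η / 16) := by
      have := ht ⟨k₀ + P, rfl⟩
      simpa using this
    rw [Metric.mem_ball] at hy
    have hs := hτ y _ hy
    have hsP : τ y ≤ P := Finset.single_le_sum (f := τ) (fun _ _ => Nat.zero_le _)
      (htfin.mem_toFinset.2 hyt)
    refine ⟨k₀ + P - τ y, by omega, by omega, fun l hl => ?_⟩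
    have hd : dist (g (k₀ + P)) (g (τ y)) ≤ η / 8 := by
      have := dist_triangle_right (g (k₀ + P)) (g (τ y)) y
      linarith
    have hdl := (dist_le_pi_dist (g (k₀ + P)) (g (τ y)) ⟨l, hl⟩).trans hd
    simp only [g] at hdl
    have e : ζ l ^ (k₀ + P) - ζ l ^ τ y = ζ l ^ τ y * (ζ l ^ (k₀ + P - τ y) - 1) := by
      rw [mul_sub, ← pow_add, mul_one]
      congr 2
      omega
    rw [dist_eq_norm, e, norm_mul, norm_pow, hζ, one_pow, one_mul] at hdl
    exact hdl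
  -- two near points
  obtain ⟨i, j, hij, hd⟩ : ∃ i j, ζ i ≠ ζ j ∧ ‖ζ i - ζ j‖ * (P + 1) ≤ 1 / 2 := by
    obtain ⟨a, -, φ, hφ, hlim⟩ := tendsto_subseq_of_bounded (s := Metric.closedBall (0 : ℂ) 1)
      Metric.isBounded_closedBall (x := ζ) (fun n => by simp [hζ])
    have hc := hlim.cauchySeq
    obtain ⟨M, hM⟩ := Metric.cauchySeq_iff'.1 hc (1 / (2 * (P + 1))) (by positivity)
    have h2 := hM (M + 1) (Nat.le_succ M)
    refine ⟨φ (M + 1), φ M, fun h => ?_, ?_⟩
    · have := hφ.injective (hinj h)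
      omega
    · simp only [Function.comp, dist_eq_norm] at h2
      rw [lt_div_iff₀ (by positivity)] at h2
      linarith
  have hj0 : ζ j ≠ 0 := fun h => by have := hζ j; rw [h, norm_zero] at this; norm_num at this
  set z := ζ i / ζ j with hz
  have hz1 : ‖z‖ = 1 := by rw [hz, norm_div, hζ, hζ, div_one]
  have hzne : z ≠ 1 := fun h => hij (by rw [hz, div_eq_one_iff_eq hj0] at h; exact h)
  have hzd : ‖z - 1‖ = ‖ζ i - ζ j‖ := by
    have e : z - 1 = (ζ i - ζ j) / ζ j := by rw [hz]; field_simp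
    rw [e, norm_div, hζ, div_one]
  obtain ⟨k₀, hk₀, hfar⟩ := exists_far hz1 hzne (max N 1)
  obtain ⟨k, hk1, hk2, hkl⟩ := hP k₀
  have h2 := h1 k (hk₀.trans hk1) hkl
  have h3 : ‖z ^ k - 1‖ ≤ 1 / 4 := by
    have e : z ^ k - 1 = (ζ i ^ k - 1 - (ζ j ^ k - 1)) / ζ j ^ k := by
      rw [hz, div_pow]
      field_simp
      ring
    rw [e, norm_div, norm_pow, hζ, one_pow, div_one]
    refine (norm_sub_le _ _).trans ?_
    linarith [h2 i, h2 j]
  have h4 : ‖z ^ k - z ^ k₀‖ ≤ 1 / 2 := by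
    obtain ⟨d, rfl⟩ := Nat.exists_eq_add_of_le hk1
    have e : z ^ (k₀ + d) - z ^ k₀ = z ^ k₀ * (z ^ d - 1 ^ d) := by rw [pow_add, one_pow]; ring
    rw [e, norm_mul, norm_pow, hz1, one_pow, one_mul]
    refine (pow_sub_pow_norm hz1 norm_one d).trans ?_
    rw [hzd]
    have hdP : (d : ℝ) ≤ P := by exact_mod_cast (by omega : d ≤ P)
    nlinarith [norm_nonneg (ζ i - ζ j)]
  have h5 : ‖z ^ k₀ - 1‖ ≤ ‖z ^ k - z ^ k₀‖ + ‖z ^ k - 1‖ := by
    have e : z ^ k₀ - 1 = -(z ^ k - z ^ k₀) + (z ^ k - 1) := by ring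
    rw [e]
    refine (norm_add_le _ _).trans ?_
    rw [norm_neg]
  linarith

end Pool.Agent.Helper44.WNH
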