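import Pool.Agent.Helper44.WNH.Bohr

/-!
# A dense numerical orbit from infinitely many eigenvalues on a circle
-/

set_option autoImplicit false

open Filter Topology

namespace Pool.Agent.Helper44.WNH

universe u

/-- a functional which is not too small on a sequence of unit vectors -/
theorem functional {X : Type u} [NormedAddCommGroup X] [NormedSpace ℂ X] (e : ℕ → X)
    (he : ∀ i, ‖e i‖ = 1) : ∃ f : X →L[ℂ] ℂ, ∀ i, 1 / 6 * (1 / 4 : ℝ) ^ i ≤ ‖f (e i)‖ := by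
  classical
  have hg : ∀ i, ∃ g : X →L[ℂ] ℂ, ‖g‖ = 1 ∧ g (e i) = 1 := by
    intro i
    obtain ⟨g, h1, h2⟩ := exists_dual_vector ℂ (e i) (by rw [he]; exact one_ne_zero)
    exact ⟨g, h1, by rw [h2, he i]; simp⟩
  choose g hg1 hg2 using hg
  let F : ℕ → (X →L[ℂ] ℂ) := fun n => Nat.rec (g 0) (fun i Fi =>
    if (1 / 4 : ℝ) ^ (i + 1) / 2 ≤ ‖Fi (e (i + 1))‖ then Fi
    else Fi + (((1 / 4 : ℝ) ^ (i + 1) : ℝ) : ℂ) • g (i + 1)) n
  have hF0 : F 0 = g 0 := rfl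
  have hFs : ∀ i, F (i + 1) = if (1 / 4 : ℝ) ^ (i + 1) / 2 ≤ ‖F i (e (i + 1))‖ then F i
      else F i + (((1 / 4 : ℝ) ^ (i + 1) : ℝ) : ℂ) • g (i + 1) := fun i => rfl
  have hstep : ∀ i, ‖F (i + 1) - F i‖ ≤ (1 / 4 : ℝ) ^ (i + 1) := by
    intro i
    rw [hFs]
    split_ifs
    · rw [sub_self, norm_zero]; positivity
    · rw [add_sub_cancel_left, norm_smul, hg1, mul_one, Complex.norm_real, Real.norm_of_nonneg]
      positivity
  have hbig : ∀ i, (1 / 4 : ℝ) ^ i / 2 ≤ ‖F i (e i)‖ := by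
    intro i
    cases i with
    | zero => rw [hF0, hg2]; norm_num
    | succ i =>
      rw [hFs]
      split_ifs with h
      · exact h
      · push Not at h
        have e1 : (F i + (((1 / 4 : ℝ) ^ (i + 1) : ℝ) : ℂ) • g (i + 1)) (e (i + 1)) =
            F i (e (i + 1)) + (((1 / 4 : ℝ) ^ (i + 1) : ℝ) : ℂ) := by
          change F i (e (i + 1)) + (((1 / 4 : ℝ) ^ (i + 1) : ℝ) : ℂ) * g (i + 1) (e (i + 1)) = _
          rw [hg2, mul_one]
        rw [e1]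
        have e2 : ‖(((1 / 4 : ℝ) ^ (i + 1) : ℝ) : ℂ)‖ = (1 / 4 : ℝ) ^ (i + 1) := by
          rw [Complex.norm_real, Real.norm_of_nonneg (by positivity)]
        have e3 := norm_sub_norm_le ((((1 / 4 : ℝ) ^ (i + 1) : ℝ) : ℂ)) (-F i (e (i + 1)))
        rw [sub_neg_eq_add, norm_neg, e2] at e3
        rw [add_comm (F i (e (i + 1)))]
        linarith
  have hgeo : ∀ n, dist (F n) (F (n + 1)) ≤ 1 / 4 * (1 / 4 : ℝ) ^ n := by
    intro n
    rw [dist_comm, dist_eq_norm]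
    refine (hstep n).trans (le_of_eq ?_)
    rw [pow_succ]; ring
  obtain ⟨f, hf⟩ := cauchySeq_tendsto_of_complete
    (cauchySeq_of_le_geometric (1 / 4) (1 / 4) (by norm_num) hgeo)
  refine ⟨f, fun i => ?_⟩
  have h1 := dist_le_of_le_geometric_of_tendsto (1 / 4) (1 / 4) (by norm_num) hgeo hf i
  rw [dist_eq_norm] at h1
  have h2 : ‖(F i - f) (e i)‖ ≤ ‖F i - f‖ := by
    have := (F i - f).le_opNorm (e i)
    rwa [he, mul_one] at this
  have h3 : ‖F i (e i)‖ ≤ ‖(F i - f) (e i)‖ + ‖f (e i)‖ := by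
    have e1 : F i (e i) = (F i - f) (e i) + f (e i) := by
      change F i (e i) = F i (e i) - f (e i) + f (e i)
      ring
    rw [e1]
    exact norm_add_le _ _
  have h4 := hbig i
  have h5 : (1 / 4 : ℝ) * (1 / 4) ^ i / (1 - 1 / 4) = 1 / 3 * (1 / 4) ^ i := by ring
  rw [h5] at h1
  linarith

/-- the coefficients -/
noncomputable def qq (v : ℕ → ℂ) (D : ℕ → ℕ → ℂ) : ℕ → ℂ
  | i => (v i - ∑ l : Fin i, qq v D l * D l i) / D i i
termination_by i => i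
decreasing_by exact l.2

theorem qq_eq (v : ℕ → ℂ) (D : ℕ → ℕ → ℂ) (i : ℕ) :
    qq v D i = (v i - ∑ l ∈ Finset.range i, qq v D l * D l i) / D i i := by
  rw [qq, Finset.sum_range]

theorem sum_eighth (n : ℕ) : ∑ l ∈ Finset.range n, (1 / 8 : ℝ) ^ l ≤ 2 := by
  have h := geom_sum_eq (show (1 / 8 : ℝ) ≠ 1 by norm_num) n
  rw [h]
  have : (0 : ℝ) ≤ (1 / 8) ^ n := by positivity
  rw [div_le_iff_of_neg (by norm_num)]
  linarith

/-- the selection of the return times -/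
theorem select {ζ : ℕ → ℂ} (hζ : ∀ j, ‖ζ j‖ = 1) (hinj : Function.Injective ζ) {s : ℝ}
    (hs0 : 0 < s) (hs1 : s < 1) (v : ℕ → ℂ) :
    ∃ (k j kp : ℕ → ℕ), kp 0 = 0 ∧ (∀ i, kp (i + 1) = k i) ∧ (∀ i, kp i ≤ k i) ∧
      (∀ i, 4 * ‖v i‖ * s ^ k i ≤ (1 / 8) ^ i * s ^ kp i / 2) ∧
      (∀ i, ‖ζ 0 ^ k i - 1‖ ≤ (1 / 8) ^ i * s ^ kp i / 64) ∧
      (∀ i l, l < i → ‖ζ (j l) ^ k i - 1‖ ≤ (1 / 8) ^ i * s ^ kp i / 64) ∧
      (∀ i, 1 / 2 ≤ ‖ζ (j i) ^ k i - 1‖) := by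
  classical
  have step : ∀ (i p : ℕ) (F : Finset ℕ), ∃ k j : ℕ, p ≤ k ∧
      4 * ‖v i‖ * s ^ k ≤ (1 / 8) ^ i * s ^ p / 2 ∧
      (∀ l ∈ F, ‖ζ l ^ k - 1‖ ≤ (1 / 8) ^ i * s ^ p / 64) ∧ 1 / 2 ≤ ‖ζ j ^ k - 1‖ := by
    intro i p F
    have hB : 0 < (1 / 8 : ℝ) ^ i * s ^ p := by positivity
    obtain ⟨N, hN⟩ := exists_pow_lt_of_lt_one
      (show 0 < (1 / 8 : ℝ) ^ i * s ^ p / 2 / (4 * ‖v i‖ + 1) by positivity) hs1
    obtain ⟨k, hk, j, h1, h2⟩ := bohr hζ hinj F (show 0 < (1 / 8 : ℝ) ^ i * s ^ p / 64 by positivity)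
      (max N p)
    refine ⟨k, j, (le_max_right _ _).trans hk, ?_, h1, h2⟩
    have h3 : s ^ k ≤ s ^ N := pow_le_pow_of_le_one hs0.le hs1.le ((le_max_left _ _).trans hk)
    rw [lt_div_iff₀ (by positivity)] at hN
    have h4 : 0 ≤ s ^ N := by positivity
    nlinarith [norm_nonneg (v i)]
  choose K J h1 h2 h3 h4 using step
  let st : ℕ → ℕ × Finset ℕ := fun n => Nat.rec (0, {0}) (fun i a =>
    (K i a.1 a.2, insert (J i a.1 a.2) a.2)) n
  have hst0 : st 0 = (0, {0}) := rfl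
  have hsts : ∀ i, st (i + 1) = (K i (st i).1 (st i).2, insert (J i (st i).1 (st i).2) (st i).2) :=
    fun i => rfl
  have hm0 : ∀ i, 0 ∈ (st i).2 := by
    intro i
    induction i with
    | zero => rw [hst0]; simp
    | succ i ih => rw [hsts]; exact Finset.mem_insert_of_mem ih
  have hml : ∀ i l, l < i → J l (st l).1 (st l).2 ∈ (st i).2 := by
    intro i
    induction i with
    | zero => intro l hl; omega
    | succ i ih =>
      intro l hl
      rw [hsts]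
      rcases Nat.lt_succ_iff_lt_or_eq.1 hl with h | h
      · exact Finset.mem_insert_of_mem (ih l h)
      · subst h; exact Finset.mem_insert_self _ _
  exact ⟨fun i => K i (st i).1 (st i).2, fun i => J i (st i).1 (st i).2, fun i => (st i).1, rfl,
    fun i => rfl, fun i => h1 i _ _, fun i => h2 i _ _, fun i => h3 i _ _ _ (hm0 i),
    fun i l hl => h3 i _ _ _ (hml i l hl), fun i => h4 i _ _⟩

end Pool.Agent.Helper44.WNH
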