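import Pool.Agent.Helper44.WNH.Orbit

/-!
# A dense numerical orbit from infinitely many eigenvalues on a circle: two dual settings

The functionals are taken from a Banach space `G` with a map `J` of norm at most one to the dual
of `E`: for eigenvectors `E = X`, `G = X*`; for eigenfunctionals `E = X*`, `G = X`.
-/

set_option autoImplicit false

open Filter Topology Set

namespace Pool.Agent.Helper44.WNH

universe u

variable {E G : Type u} [NormedAddCommGroup E] [NormedSpace ℂ E] [NormedAddCommGroup G]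
  [NormedSpace ℂ G]

/-- a functional from `G` which is not too small on a sequence of unit vectors -/
theorem functionalG [CompleteSpace G] (J : G →L[ℂ] (E →L[ℂ] ℂ)) (hJ : ‖J‖ ≤ 1) (e : ℕ → E)
    (he : ∀ i, ‖e i‖ = 1) (g : ℕ → G) (hg1 : ∀ i, ‖g i‖ ≤ 1)
    (hg2 : ∀ i, 9 / 10 ≤ ‖J (g i) (e i)‖) :
    ∃ f : G, ∀ i, 1 / 10 * (1 / 4 : ℝ) ^ i ≤ ‖J f (e i)‖ := by
  classical
  let F : ℕ → G := fun n => Nat.rec (g 0) (fun i Fi =>
    if 9 / 20 * (1 / 4 : ℝ) ^ (i + 1) ≤ ‖J Fi (e (i + 1))‖ then Fi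
    else Fi + (((1 / 4 : ℝ) ^ (i + 1) : ℝ) : ℂ) • g (i + 1)) n
  have hF0 : F 0 = g 0 := rfl
  have hFs : ∀ i, F (i + 1) = if 9 / 20 * (1 / 4 : ℝ) ^ (i + 1) ≤ ‖J (F i) (e (i + 1))‖ then F i
      else F i + (((1 / 4 : ℝ) ^ (i + 1) : ℝ) : ℂ) • g (i + 1) := fun i => rfl
  have hstep : ∀ i, ‖F (i + 1) - F i‖ ≤ (1 / 4 : ℝ) ^ (i + 1) := by
    intro i
    rw [hFs]
    split_ifs
    · rw [sub_self, norm_zero]; positivity
    · rw [add_sub_cancel_left, norm_smul, Complex.norm_real, Real.norm_of_nonneg (by positivity)]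
      have h1 : (0 : ℝ) ≤ (1 / 4) ^ (i + 1) := by positivity
      nlinarith [hg1 (i + 1)]
  have hbig : ∀ i, 9 / 20 * (1 / 4 : ℝ) ^ i ≤ ‖J (F i) (e i)‖ := by
    intro i
    cases i with
    | zero => rw [hF0]; have := hg2 0; norm_num at this ⊢; linarith
    | succ i =>
      rw [hFs]
      split_ifs with h
      · exact h
      · push Not at h
        have e1 : J (F i + (((1 / 4 : ℝ) ^ (i + 1) : ℝ) : ℂ) • g (i + 1)) (e (i + 1)) =
            J (F i) (e (i + 1)) + (((1 / 4 : ℝ) ^ (i + 1) : ℝ) : ℂ) * J (g (i + 1)) (e (i + 1)) := by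
          rw [map_add, map_smul]
          rfl
        rw [e1]
        have e2 : ‖(((1 / 4 : ℝ) ^ (i + 1) : ℝ) : ℂ) * J (g (i + 1)) (e (i + 1))‖ =
            (1 / 4 : ℝ) ^ (i + 1) * ‖J (g (i + 1)) (e (i + 1))‖ := by
          rw [norm_mul, Complex.norm_real, Real.norm_of_nonneg (by positivity)]
        have e3 := norm_sub_norm_le ((((1 / 4 : ℝ) ^ (i + 1) : ℝ) : ℂ) * J (g (i + 1)) (e (i + 1)))
          (-J (F i) (e (i + 1)))
        rw [sub_neg_eq_add, norm_neg, e2] at e3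
        rw [add_comm (J (F i) (e (i + 1)))]
        have e4 : (1 / 4 : ℝ) ^ (i + 1) * (9 / 10) ≤ (1 / 4 : ℝ) ^ (i + 1) *
            ‖J (g (i + 1)) (e (i + 1))‖ := mul_le_mul_of_nonneg_left (hg2 _) (by positivity)
        linarith
  have hgeo : ∀ n, dist (F n) (F (n + 1)) ≤ 1 / 4 * (1 / 4 : ℝ) ^ n := by
    intro n
    rw [dist_comm, dist_eq_norm]
    refine (hstep n).trans (le_of_eq ?_)
    rw [pow_succ]; ring
  obtain ⟨f, hf⟩ := cauchySeq_tendsto_of_complete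
    (cauchySeq_of_le_geometric (1 / 4) (1 / 4) (by norm_num) hgeo)
  refine ⟨f, fun i => ?_⟩
  have h1 := dist_le_of_le_geometric_of_tendsto (1 / 4) (1 / 4) (by norm_num) hgeo hf i
  rw [dist_eq_norm] at h1
  have h2 : ‖J (F i - f) (e i)‖ ≤ ‖F i - f‖ := by
    have h3 := (J (F i - f)).le_opNorm (e i)
    rw [he, mul_one] at h3
    have h4 := J.le_opNorm (F i - f)
    have h5 : ‖J‖ * ‖F i - f‖ ≤ 1 * ‖F i - f‖ := mul_le_mul_of_nonneg_right hJ (norm_nonneg _)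
    linarith
  have h3 : ‖J (F i) (e i)‖ ≤ ‖J (F i - f) (e i)‖ + ‖J f (e i)‖ := by
    have e1 : J (F i) (e i) = J (F i - f) (e i) + J f (e i) := by
      rw [map_sub]
      change J (F i) (e i) = J (F i) (e i) - J f (e i) + J f (e i)
      ring
    rw [e1]
    exact norm_add_le _ _
  have h4 := hbig i
  have h5 : (1 / 4 : ℝ) * (1 / 4) ^ i / (1 - 1 / 4) = 1 / 3 * (1 / 4) ^ i := by ring
  rw [h5] at h1
  have h6 : (0 : ℝ) < (1 / 4) ^ i := by positivity
  linarith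

/-- **The orbit.** -/
theorem dense_orbitG [CompleteSpace E] [CompleteSpace G] (J : G →L[ℂ] (E →L[ℂ] ℂ))
    (hJ : ‖J‖ ≤ 1) (T : E →L[ℂ] E) {ρ : ℝ} (hρ : 1 < ρ) (ζ : ℕ → ℂ)
    (hζ : ∀ j, ‖ζ j‖ = 1) (hinj : Function.Injective ζ) (e : ℕ → E) (he : ∀ j, ‖e j‖ = 1)
    (hT : ∀ j, T (e j) = ((ρ : ℂ) * ζ j) • e j)
    (hg : ∀ j, ∃ g : G, ‖g‖ ≤ 1 ∧ 9 / 10 ≤ ‖J g (e j)‖) :
    ∃ (x : E) (f : G), Dense (range fun n : ℕ => J f ((T ^ n) x)) := by
  have hρ0 : 0 < ρ := by linarith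
  let v : ℕ → ℂ := fun i => TopologicalSpace.denseSeq ℂ (Nat.unpair i).1
  obtain ⟨k, j, kp, hkp0, hkps, hkpk, hv, hz0, hzl, hzi⟩ := select hζ hinj
    (s := ρ⁻¹) (by positivity) (inv_lt_one_of_one_lt₀ hρ) v
  let e' : ℕ → E := fun i => Nat.casesOn i (e 0) (fun i => e (j i))
  choose g₀ hg₀ using hg
  let g' : ℕ → G := fun i => Nat.casesOn i (g₀ 0) (fun i => g₀ (j i))
  obtain ⟨fG, hf⟩ := functionalG J hJ e' (by
    intro i
    cases i with
    | zero => exact he 0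
    | succ i => exact he (j i)) g' (by
    intro i
    cases i with
    | zero => exact (hg₀ 0).1
    | succ i => exact (hg₀ (j i)).1) (by
    intro i
    cases i with
    | zero => exact (hg₀ 0).2
    | succ i => exact (hg₀ (j i)).2)
  set f : E →L[ℂ] ℂ := J fG with hfdef
  have hf0 : 1 / 10 ≤ ‖f (e 0)‖ := by
    have := hf 0
    rw [pow_zero, mul_one] at this
    exact this
  have hfi : ∀ i, 1 / 40 * (1 / 4 : ℝ) ^ i ≤ ‖f (e (j i))‖ := by
    intro i
    have h1 := hf (i + 1)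
    have h2 : e' (i + 1) = e (j i) := rfl
    rw [h2, pow_succ] at h1
    linarith
  have hf0' : f (e 0) ≠ 0 := norm_pos_iff.1 (by linarith)
  have hfi' : ∀ i, f (e (j i)) ≠ 0 := fun i =>
    norm_pos_iff.1 (lt_of_lt_of_le (by positivity) (hfi i))
  let w : ℕ → E := fun i => (f (e (j i)))⁻¹ • e (j i) - (f (e 0))⁻¹ • e 0
  have hw : ∀ i, ‖w i‖ ≤ 50 * 4 ^ i := by
    intro i
    have h1 : ‖(f (e (j i)))⁻¹ • e (j i)‖ ≤ 40 * 4 ^ i := by
      rw [norm_smul, he, mul_one, norm_inv]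
      have h3 : (40 * 4 ^ i : ℝ) = (1 / 40 * (1 / 4 : ℝ) ^ i)⁻¹ := by
        rw [mul_inv, one_div_pow, one_div, one_div, inv_inv, inv_inv]
      rw [h3]
      exact inv_anti₀ (by positivity) (hfi i)
    have h2 : ‖(f (e 0))⁻¹ • e 0‖ ≤ 10 := by
      rw [norm_smul, he, mul_one, norm_inv]
      have h3 : (10 : ℝ) = (1 / 10 : ℝ)⁻¹ := by norm_num
      rw [h3]
      exact inv_anti₀ (by positivity) hf0
    have h4 : (1 : ℝ) ≤ 4 ^ i := one_le_pow₀ (by norm_num)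
    refine (norm_sub_le _ _).trans ?_
    linarith
  have hTw : ∀ m i, f ((T ^ m) (w i)) = (ρ : ℂ) ^ m * (ζ (j i) ^ m - ζ 0 ^ m) := by
    intro m i
    have h1 : (T ^ m) (w i) = (f (e (j i)))⁻¹ • (((ρ : ℂ) * ζ (j i)) ^ m • e (j i)) -
        (f (e 0))⁻¹ • (((ρ : ℂ) * ζ 0) ^ m • e 0) := by
      change (T ^ m) ((f (e (j i)))⁻¹ • e (j i) - (f (e 0))⁻¹ • e 0) = _
      rw [map_sub, map_smul, map_smul, pow_eigen (hT _), pow_eigen (hT _)]
    rw [h1, map_sub, map_smul, map_smul, map_smul, map_smul]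
    simp only [smul_eq_mul]
    have h2 := hfi' i
    field_simp
    ring
  let D : ℕ → ℕ → ℂ := fun l i => (ρ : ℂ) ^ k i * (ζ (j l) ^ k i - ζ 0 ^ k i)
  have hρn : ∀ m : ℕ, ‖(ρ : ℂ) ^ m‖ = ρ ^ m := by
    intro m
    rw [norm_pow, Complex.norm_real, Real.norm_of_nonneg hρ0.le]
  have hDn : ∀ l i, ‖D l i‖ = ρ ^ k i * ‖ζ (j l) ^ k i - ζ 0 ^ k i‖ := by
    intro l i
    change ‖(ρ : ℂ) ^ k i * (ζ (j l) ^ k i - ζ 0 ^ k i)‖ = _
    rw [norm_mul, hρn]
  have hs1 : ∀ i, ρ⁻¹ ^ kp i ≤ 1 := fun i =>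
    pow_le_one₀ (by positivity) (inv_le_one_of_one_le₀ hρ.le)
  have hq := qq_bound v D hρ k kp hv (by
    intro i l hl
    rw [hDn]
    have h1 : ζ (j l) ^ k i - ζ 0 ^ k i = (ζ (j l) ^ k i - 1) - (ζ 0 ^ k i - 1) := by ring
    rw [h1]
    gcongr
    refine (norm_sub_le _ _).trans ?_
    have h2 := hzl i l hl
    have h3 := hz0 i
    linarith) (by
    intro i
    rw [hDn, div_eq_mul_inv]
    gcongr
    have h1 : ζ (j i) ^ k i - 1 = (ζ (j i) ^ k i - ζ 0 ^ k i) + (ζ 0 ^ k i - 1) := by ring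
    have h2 := hzi i
    rw [h1] at h2
    have h3 := norm_add_le (ζ (j i) ^ k i - ζ 0 ^ k i) (ζ 0 ^ k i - 1)
    have h4 := hz0 i
    have h5 : (1 / 8 : ℝ) ^ i * ρ⁻¹ ^ kp i ≤ 1 := by
      have h6 : (1 / 8 : ℝ) ^ i ≤ 1 := pow_le_one₀ (by norm_num) (by norm_num)
      have h7 : 0 ≤ (1 / 8 : ℝ) ^ i := by positivity
      have h8 : (0 : ℝ) ≤ ρ⁻¹ ^ kp i := by positivity
      nlinarith [hs1 i]
    norm_num
    linarith)
  set q : ℕ → ℂ := qq v D with hqdef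
  have hsum : Summable fun i => q i • w i := by
    refine Summable.of_norm_bounded (g := fun i => 50 * (1 / 2 : ℝ) ^ i)
      ((summable_geometric_of_lt_one (by norm_num) (by norm_num)).mul_left 50) ?_
    intro i
    rw [norm_smul]
    have h1 : ‖q i‖ ≤ (1 / 8 : ℝ) ^ i := by
      refine (hq i).trans ?_
      have h8 : (0 : ℝ) ≤ (1 / 8) ^ i := by positivity
      nlinarith [hs1 i]
    calc ‖q i‖ * ‖w i‖ ≤ (1 / 8 : ℝ) ^ i * (50 * 4 ^ i) :=
          mul_le_mul h1 (hw i) (norm_nonneg _) (by positivity)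
      _ = 50 * ((1 / 8) * 4) ^ i := by rw [mul_pow]; ring
      _ = 50 * (1 / 2 : ℝ) ^ i := by norm_num
  have hkpm : ∀ n i, n < i → k n ≤ kp i := by
    intro n i hi
    induction i with
    | zero => omega
    | succ i ih =>
      rcases Nat.lt_succ_iff_lt_or_eq.1 hi with h | h
      · rw [hkps]; exact (ih h).trans (hkpk i)
      · subst h; rw [hkps]
  refine ⟨∑' i, q i • w i, fG, ?_⟩
  rw [← hfdef]
  have happ : ∀ n, ‖f ((T ^ k n) (∑' i, q i • w i)) - v n‖ ≤ (1 / 8 : ℝ) ^ n := by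
    intro n
    have h1 : f ((T ^ k n) (∑' i, q i • w i)) = ∑' i, q i * D i n := by
      have h2 := (f ∘L (T ^ k n)).map_tsum hsum
      change (f ∘L (T ^ k n)) (∑' i, q i • w i) = _
      rw [h2]
      refine tsum_congr fun i => ?_
      change f ((T ^ k n) (q i • w i)) = _
      rw [map_smul, map_smul, hTw, smul_eq_mul]
    have hsG : Summable fun i => q i * D i n := by
      have h2 := hsum.map (f ∘L (T ^ k n)) (f ∘L (T ^ k n)).continuous
      refine h2.congr fun i => ?_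
      change f ((T ^ k n) (q i • w i)) = _
      rw [map_smul, map_smul, hTw, smul_eq_mul]
    rw [h1, ← hsG.sum_add_tsum_nat_add (n + 1)]
    have hDn0 : D n n ≠ 0 := by
      rw [← norm_pos_iff, hDn]
      have h1 : ζ (j n) ^ k n - 1 = (ζ (j n) ^ k n - ζ 0 ^ k n) + (ζ 0 ^ k n - 1) := by ring
      have h2 := hzi n
      rw [h1] at h2
      have h3 := norm_add_le (ζ (j n) ^ k n - ζ 0 ^ k n) (ζ 0 ^ k n - 1)
      have h4 := hz0 n
      have h5 : (1 / 8 : ℝ) ^ n * ρ⁻¹ ^ kp n ≤ 1 := by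
        have h6 : (1 / 8 : ℝ) ^ n ≤ 1 := pow_le_one₀ (by norm_num) (by norm_num)
        have h7 : 0 ≤ (1 / 8 : ℝ) ^ n := by positivity
        have h8 : (0 : ℝ) ≤ ρ⁻¹ ^ kp n := by positivity
        nlinarith [hs1 n]
      have h9 : 0 < ‖ζ (j n) ^ k n - ζ 0 ^ k n‖ := by linarith
      positivity
    have hfirst : ∑ i ∈ Finset.range (n + 1), q i * D i n = v n := by
      rw [Finset.sum_range_succ]
      have h3 : q n * D n n = v n - ∑ l ∈ Finset.range n, q l * D l n := by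
        rw [hqdef, qq_eq v D n, div_mul_cancel₀ _ hDn0]
      rw [h3]
      ring
    rw [hfirst, add_sub_cancel_left]
    have hgeo := (hasSum_geometric_of_lt_one (show (0 : ℝ) ≤ 1 / 8 by norm_num)
      (by norm_num)).mul_left (2 * (1 / 8 : ℝ) ^ (n + 1))
    have hle : ‖∑' i, q (i + (n + 1)) * D (i + (n + 1)) n‖ ≤
        2 * (1 / 8 : ℝ) ^ (n + 1) * (1 - 1 / 8)⁻¹ := by
      refine tsum_of_norm_bounded hgeo fun i => ?_
      rw [norm_mul, hDn]
      have h5 : ‖ζ (j (i + (n + 1))) ^ k n - ζ 0 ^ k n‖ ≤ 2 := by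
        refine (norm_sub_le _ _).trans ?_
        rw [norm_pow, norm_pow, hζ, hζ, one_pow]
        norm_num
      have h6 := hq (i + (n + 1))
      have h7 : ρ⁻¹ ^ kp (i + (n + 1)) ≤ ρ⁻¹ ^ k n :=
        pow_le_pow_of_le_one (by positivity) (inv_le_one_of_one_le₀ hρ.le)
          (hkpm n _ (by omega))
      have h8 : ρ⁻¹ ^ k n * ρ ^ k n = 1 := by
        rw [← mul_pow, inv_mul_cancel₀ hρ0.ne', one_pow]
      calc ‖q (i + (n + 1))‖ * (ρ ^ k n * ‖ζ (j (i + (n + 1))) ^ k n - ζ 0 ^ k n‖)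
          ≤ ((1 / 8 : ℝ) ^ (i + (n + 1)) * ρ⁻¹ ^ k n) * (ρ ^ k n * 2) := by
            refine mul_le_mul (h6.trans ?_) ?_ (by positivity) (by positivity)
            · exact mul_le_mul_of_nonneg_left h7 (by positivity)
            · exact mul_le_mul_of_nonneg_left h5 (by positivity)
        _ = 2 * (1 / 8 : ℝ) ^ (i + (n + 1)) * (ρ⁻¹ ^ k n * ρ ^ k n) := by ring
        _ = 2 * (1 / 8 : ℝ) ^ (n + 1) * (1 / 8) ^ i := by rw [h8, mul_one, pow_add]; ring
    refine hle.trans ?_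
    rw [pow_succ]
    have : (0 : ℝ) < (1 / 8) ^ n := by positivity
    norm_num
    linarith
  rw [Metric.dense_iff]
  intro z r hr
  obtain ⟨a, ha⟩ : ∃ a, dist (TopologicalSpace.denseSeq ℂ a) z < r / 2 := by
    obtain ⟨y, hy, a, rfl⟩ := Metric.dense_iff.1 (TopologicalSpace.denseRange_denseSeq ℂ) z (r / 2)
      (by positivity)
    exact ⟨a, hy⟩
  obtain ⟨b, hb⟩ := exists_pow_lt_of_lt_one (show 0 < r / 2 by positivity)
    (show (1 / 8 : ℝ) < 1 by norm_num)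
  refine ⟨f ((T ^ k (Nat.pair a b)) (∑' i, q i • w i)), ?_, k (Nat.pair a b), rfl⟩
  rw [Metric.mem_ball]
  have h1 := happ (Nat.pair a b)
  have h2 : v (Nat.pair a b) = TopologicalSpace.denseSeq ℂ a := by
    change TopologicalSpace.denseSeq ℂ (Nat.unpair (Nat.pair a b)).1 = _
    rw [Nat.unpair_pair]
  have h3 : (1 / 8 : ℝ) ^ Nat.pair a b ≤ (1 / 8) ^ b :=
    pow_le_pow_of_le_one (by norm_num) (by norm_num) (Nat.right_le_pair a b)
  rw [h2, ← dist_eq_norm] at h1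
  calc _ ≤ _ := dist_triangle _ (TopologicalSpace.denseSeq ℂ a) _
    _ < r := by linarith

end Pool.Agent.Helper44.WNH
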